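import Pool.Agent.P.MP_32afb7_pr.Prob

namespace Pool.Agent.Results.MP_32afb7_pr.OddPercolates

open MeasureTheory Pool.Agent.P.MP_32afb7_pr

/-- Q1 is false: there is a degree law `μ` carried by the odd integers, with finite moments of all
orders, such that almost surely the marked Poisson process has a stable multi-matching and every
stable multi-matching of it has an infinite component. -/
theorem result : ∃ μ : Measure ℕ, IsProbabilityMeasure μ ∧ μ {n | Odd n} = 1 ∧
    (∀ k : ℕ, ∫⁻ n, (n : ENNReal) ^ k ∂μ < ⊤) ∧
    ∀ᵐ ω ∂markedLaw μ,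
      (∃ G, IsStableMultiMatching (point fun i => (ω i).1) (fun i => (ω i).2) G) ∧
      ∀ G, IsStableMultiMatching (point fun i => (ω i).1) (fun i => (ω i).2) G →
        ∃ c : G.ConnectedComponent, c.supp.Infinite :=
  ⟨mu0, instProbMu0, mu0_odd, mu0_moment, main⟩

end Pool.Agent.Results.MP_32afb7_pr.OddPercolates
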